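import Pool.Agent.T2h19.BI.All

/-!
# The Hasse principle for 100% of the Fano hypersurfaces in products of projective spaces

Let `F` be a form of multidegree `(d_1, …, d_r)` on `ℙ^{n_1} × ⋯ × ℙ^{n_r}`, `r ≥ 2`, `d_i ≥ 1`,
`n_i ≥ 1`, with integral coefficients, and `X_F` the hypersurface `F = 0`. If `X_F` is smooth then
`-K` is the restriction of `O(n_1 + 1 - d_1, …, n_r + 1 - d_r)`, and `X_F` is a Fano variety if
`d_i ≤ n_i` for all `i`. We only suppose that there is one factor with `n_i ≥ 3` and `d_i ≤ n_i`, or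
one with `d_i = 1` (then there is always a rational point). Among the Fano hypersurfaces this leaves
out only the multidegree `(2, …, 2)` on `ℙ² × ⋯ × ℙ²`. We show: among the smooth `X_F`, with
coefficients of `F` bounded by `H`, which have points over the real numbers and over all the `p`-adic
fields (this is a positive proportion of all `F`), a proportion tending to `1` as `H → ∞` has a
rational point.
-/

set_option autoImplicit false

namespace Pool.Agent.Kept.MP_03ef3d_ag.FanoInProducts

open Filter Topology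

/-- The polynomials in the variables `x_{i, j}`, `0 ≤ j ≤ n i`, `1 ≤ i ≤ r`, with integral
coefficients of absolute value at most `H`, which are homogeneous of degree `d i` in the variables
`x_{i, 0}, …, x_{i, n i}` for all `i`. -/
def Forms {r : ℕ} (n d : Fin r → ℕ) (H : ℕ) :
    Set (MvPolynomial ((i : Fin r) × Fin (n i + 1)) ℤ) :=
  {F | (∀ m ∈ F.support, ∀ i, ∑ j, m ⟨i, j⟩ = d i) ∧ ∀ m, |F.coeff m| ≤ (H : ℤ)}

/-- The value of `F` at the point `x`. -/
noncomputable def value {r : ℕ} {n : Fin r → ℕ} {K : Type} [Field K]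
    (x : (i : Fin r) → Fin (n i + 1) → K) (F : MvPolynomial ((i : Fin r) × Fin (n i + 1)) ℤ) : K :=
  MvPolynomial.aeval (fun q : (i : Fin r) × Fin (n i + 1) => x q.1 q.2) F

/-- The hypersurface `F = 0` in the product of the projective spaces is smooth: at every point over
a field of characteristic zero some partial derivative does not vanish. -/
def Smooth {r : ℕ} {n : Fin r → ℕ} (F : MvPolynomial ((i : Fin r) × Fin (n i + 1)) ℤ) : Prop :=
  ∀ (K : Type) [Field K] [CharZero K] (x : (i : Fin r) → Fin (n i + 1) → K), (∀ i, x i ≠ 0) →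
    value x F = 0 → ∃ q, value x (MvPolynomial.pderiv q F) ≠ 0

/-- The hypersurface `F = 0` in the product of the projective spaces has a point over `K`. -/
def HasPoint {r : ℕ} {n : Fin r → ℕ} (F : MvPolynomial ((i : Fin r) × Fin (n i + 1)) ℤ)
    (K : Type) [Field K] : Prop :=
  ∃ x : (i : Fin r) → Fin (n i + 1) → K, (∀ i, x i ≠ 0) ∧ value x F = 0

/-- The hypersurface has points over the real numbers and over all the `p`-adic fields. -/
def LocallySoluble {r : ℕ} {n : Fin r → ℕ}
    (F : MvPolynomial ((i : Fin r) × Fin (n i + 1)) ℤ) : Prop :=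
  HasPoint F ℝ ∧ ∀ (p : ℕ) [Fact p.Prime], HasPoint F ℚ_[p]

/-- If `d i = 1` or `3 ≤ n i`, `d i ≤ n i` for at least one `i`, then 100% of the everywhere locally
soluble smooth hypersurfaces of multidegree `(d_1, …, d_r)` in `ℙ^{n_1} × ⋯ × ℙ^{n_r}`, ordered by
height, have a rational point; the everywhere locally soluble ones are a positive proportion. -/
theorem result (r : ℕ) (_hr : 2 ≤ r) (n d : Fin r → ℕ) (hn : ∀ i, 1 ≤ n i ∧ 1 ≤ d i)
    (h : ∃ i, d i = 1 ∨ (3 ≤ n i ∧ d i ≤ n i)) :
    (∃ c : ℝ, 0 < c ∧ ∀ᶠ H : ℕ in atTop, c * ((Forms n d H).ncard : ℝ) ≤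
      (({F | F ∈ Forms n d H ∧ Smooth F ∧ LocallySoluble F} : Set _).ncard : ℝ)) ∧
    Tendsto (fun H : ℕ =>
      (({F | F ∈ Forms n d H ∧ Smooth F ∧ HasPoint F ℚ} : Set _).ncard : ℝ) /
      (({F | F ∈ Forms n d H ∧ Smooth F ∧ LocallySoluble F} : Set _).ncard : ℝ))
      atTop (𝓝 1) :=
  Pool.Agent.T2h19.BI.fin r n d hn h

end Pool.Agent.Kept.MP_03ef3d_ag.FanoInProducts
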